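import Pool.Agent.Y245.SC.Stm2

/-!
SC-TR (helper245): from the logarithmic coordinate back to the disc (helper427).
-/

set_option autoImplicit false

open Complex MeasureTheory Metric Set Filter Topology ComplexConjugate

namespace Pool.Agent.Y427.SC

open Pool.Agent.Y245.SC

theorem tr : S_TR := by
  intro φ F' ℓ y1 ρ hℓ hρ hF' hE
  set a : ℂ := (ℓ : ℂ) + y1 * I with ha
  set p : ℂ := ((-ℓ : ℝ) : ℂ) + y1 * I with hp
  have hw0 : exp a ≠ 0 := exp_ne_zero _
  -- the reflected map
  set G : ℂ → ℂ := fun z => conj (F' (-(conj z))) with hG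
  have hGd : ∀ z : ℂ, -(conj z) ∈ ball p ρ → DifferentiableAt ℂ G z := by
    intro z hz
    have h1 : DifferentiableAt ℂ F' (-(conj z)) := hF'.differentiableAt (isOpen_ball.mem_nhds hz)
    have h2 : DifferentiableAt ℂ (fun u => F' (-u)) (conj z) :=
      DifferentiableAt.comp (conj z) (g := F') (f := fun u => -u) h1 differentiableAt_id.neg
    have h3 : DifferentiableAt ℂ (conj ∘ (fun u => F' (-u)) ∘ conj) z :=
      differentiableAt_conj_conj_iff.2 h2
    exact h3
  -- the logarithm near the point
  set Lam : ℂ → ℂ := fun w => a + log (w / exp a) with hLam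
  have hLam1 : Lam (exp a) = a := by
    simp only [hLam]
    rw [div_self hw0, log_one, add_zero]
  have hLc : ∀ w : ℂ, w / exp a ∈ slitPlane → DifferentiableAt ℂ Lam w := by
    intro w hw
    have h1 : DifferentiableAt ℂ (fun w : ℂ => w / exp a) w := differentiableAt_id.div_const _
    exact (differentiableAt_const a).add (h1.clog hw)
  have hs1 : exp a / exp a ∈ slitPlane := by
    rw [div_self hw0]
    exact one_mem_slitPlane
  have hneg : -(conj a) = p := by
    simp only [ha, hp, map_add, map_mul, conj_I, conj_ofReal]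
    push_cast
    ring
  -- a neighbourhood
  have hev : ∀ᶠ w in 𝓝 (exp a), w / exp a ∈ slitPlane ∧ -(conj (Lam w)) ∈ ball p ρ := by
    have h1 : ContinuousAt (fun w : ℂ => w / exp a) (exp a) := by fun_prop
    have h2 : ContinuousAt (fun w : ℂ => -(conj (Lam w))) (exp a) :=
      (continuous_conj.continuousAt.comp (hLc _ hs1).continuousAt).neg
    have h3 : -(conj (Lam (exp a))) ∈ ball p ρ := by
      rw [hLam1, hneg]
      exact mem_ball_self hρ
    exact (h1.eventually (isOpen_slitPlane.mem_nhds hs1)).and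
      (h2.eventually (isOpen_ball.mem_nhds h3))
  have hev2 : ∀ᶠ w in 𝓝 (exp a), w ≠ 0 := isOpen_ne.mem_nhds hw0
  obtain ⟨ε, hε, hball⟩ := Metric.eventually_nhds_iff_ball.1 (hev.and hev2)
  refine ⟨ε, fun w => G (Lam w), hε, ?_, ?_⟩
  · intro w hw
    obtain ⟨⟨h1, h2⟩, _⟩ := hball w hw
    exact (DifferentiableAt.comp w (g := G) (f := Lam) (hGd _ h2)
      (hLc w h1)).differentiableWithinAt
  · intro w hw hwn
    obtain ⟨⟨h1, h2⟩, h0⟩ := hball w hw
    have e1 : exp (Lam w) = w := by
      simp only [hLam]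
      rw [exp_add, exp_log (slitPlane_ne_zero h1)]
      field_simp
    have h3 : (Lam w).re < ℓ := by
      have h4 : Real.exp (Lam w).re = ‖w‖ := by
        rw [← norm_exp, e1]
      rw [← h4] at hwn
      exact Real.exp_lt_exp.1 hwn
    have h5 : -ℓ < (-(conj (Lam w))).re := by
      rw [neg_re, conj_re]
      linarith
    have h6 := hE _ h2 h5
    simp only [hG]
    rw [h6]
    unfold Fc
    rw [map_neg, Complex.conj_conj, neg_neg, Complex.conj_conj, e1]

end Pool.Agent.Y427.SC
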