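import Mathlib

/-!
SC-GEO (helper245): a circle, statement without the definitions of the project (helper427).
-/

set_option autoImplicit false

open Complex Metric Set Filter Topology ComplexConjugate

namespace Pool.Agent.Y427.SC

theorem geo_core (φ : ℂ → ℂ) (r : ℝ) (ct s0 xs : ℂ) (hr : 1 < r)
    (hφ : DifferentiableOn ℂ φ (ball 0 r)) (hinj : InjOn φ (ball 0 r)) (hct : ct ≠ 0)
    (h : ∀ w ∈ sphere (0 : ℂ) 1, (conj (φ w) - s0) * (φ w - xs) = ct) :
    ∃ (p : ℂ) (R : ℝ), 0 < R ∧ φ '' ball 0 1 = ball p R := by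
  have hsub : closedBall (0 : ℂ) 1 ⊆ ball 0 r := closedBall_subset_ball hr
  have hssub : sphere (0 : ℂ) 1 ⊆ ball 0 r := sphere_subset_closedBall.trans hsub
  -- the polynomial identity
  set κ : ℂ := s0 - conj xs with hκ
  set P : Polynomial ℂ := Polynomial.C κ * (Polynomial.X - Polynomial.C xs) *
    (Polynomial.X - Polynomial.C (conj s0)) + Polynomial.C ct *
    (Polynomial.X - Polynomial.C (conj s0)) - Polynomial.C (conj ct) *
    (Polynomial.X - Polynomial.C xs) with hP
  have hPe : ∀ v : ℂ, P.eval v = κ * (v - xs) * (v - conj s0) + ct * (v - conj s0) -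
      conj ct * (v - xs) := by
    intro v
    simp [hP]
  have hroot : ∀ w ∈ sphere (0 : ℂ) 1, P.IsRoot (φ w) := by
    intro w hw
    have h1 := h w hw
    have h2 : (φ w - conj s0) * (conj (φ w) - conj xs) = conj ct := by
      have := congrArg conj h1
      simp only [map_mul, map_sub, Complex.conj_conj] at this
      exact this
    rw [Polynomial.IsRoot.def, hPe]
    linear_combination (φ w - xs) * h2 - (φ w - conj s0) * h1
  have hinf : (sphere (0 : ℂ) 1).Infinite := by
    have h1 : (circleMap (0 : ℂ) 1 '' Ico (0 : ℝ) 1) ⊆ sphere (0 : ℂ) 1 := by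
      rintro _ ⟨θ, _, rfl⟩
      exact circleMap_mem_sphere 0 zero_le_one θ
    refine Set.Infinite.mono h1 ?_
    refine Set.Infinite.image ?_ (Ico_infinite one_pos)
    exact injOn_circleMap_of_abs_sub_le' one_ne_zero (by
      have := Real.pi_gt_three
      linarith)
  have hP0 : P = 0 := by
    apply Polynomial.eq_zero_of_infinite_isRoot
    have h1 : (φ '' sphere (0 : ℂ) 1).Infinite :=
      hinf.image (hinj.mono hssub)
    refine h1.mono ?_
    rintro _ ⟨w, hw, rfl⟩
    exact hroot w hw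
  have hPz : ∀ v : ℂ, κ * (v - xs) * (v - conj s0) + ct * (v - conj s0) -
      conj ct * (v - xs) = 0 := by
    intro v
    rw [← hPe, hP0, Polynomial.eval_zero]
  have e1 : xs = conj s0 := by
    have h1 := hPz xs
    rw [sub_self, mul_zero, zero_mul, zero_add, mul_zero, sub_zero] at h1
    exact sub_eq_zero.1 ((mul_eq_zero.1 h1).resolve_left hct)
  have e2 : κ = 0 := by
    rw [hκ, e1, Complex.conj_conj, sub_self]
  have e3 : ct = conj ct := by
    have h1 := hPz (xs + 1)
    rw [e2, ← e1] at h1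
    linear_combination h1
  have e4 : s0 = conj xs := sub_eq_zero.1 e2
  -- the radius
  have h5 : ∀ w ∈ sphere (0 : ℂ) 1, ((‖φ w - xs‖ ^ 2 : ℝ) : ℂ) = ct := by
    intro w hw
    rw [← h w hw, e4, ← map_sub, mul_comm, Complex.mul_conj, Complex.normSq_eq_norm_sq]
  have h1s : (1 : ℂ) ∈ sphere (0 : ℂ) 1 := by simp
  set R : ℝ := ‖φ 1 - xs‖ with hR
  have hRc : ((R ^ 2 : ℝ) : ℂ) = ct := h5 1 h1s
  have hR0 : 0 < R := by
    refine lt_of_le_of_ne (norm_nonneg _) (fun h0 => hct ?_)
    rw [← hRc, ← h0]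
    simp
  have h6 : ∀ w ∈ sphere (0 : ℂ) 1, ‖φ w - xs‖ = R := by
    intro w hw
    have h7 : ((‖φ w - xs‖ ^ 2 : ℝ) : ℂ) = ((R ^ 2 : ℝ) : ℂ) := (h5 w hw).trans hRc.symm
    have h8 : ‖φ w - xs‖ ^ 2 = R ^ 2 := by exact_mod_cast h7
    exact (pow_left_inj₀ (norm_nonneg _) hR0.le two_ne_zero).1 h8
  have hcl : closure (ball (0 : ℂ) 1) = closedBall 0 1 := closure_ball _ one_ne_zero
  have hfr : frontier (ball (0 : ℂ) 1) = sphere 0 1 := frontier_ball _ one_ne_zero
  have hd : DiffContOnCl ℂ (fun w => φ w - xs) (ball 0 1) := by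
    apply DifferentiableOn.diffContOnCl
    rw [hcl]
    exact (hφ.mono hsub).sub_const _
  have h7 : ∀ w ∈ closedBall (0 : ℂ) 1, ‖φ w - xs‖ ≤ R := by
    intro w hw
    refine Complex.norm_le_of_forall_mem_frontier_norm_le isBounded_ball hd ?_ (by rwa [hcl])
    intro z hz
    rw [hfr] at hz
    exact (h6 z hz).le
  -- open mapping
  have hne : ¬ ∃ w, ∀ z ∈ ball (0 : ℂ) 1, φ z = w := by
    rintro ⟨w, hw⟩
    have h8 : (0 : ℂ) = 1 / 2 := by
      apply hinj
      · exact mem_ball_self (by linarith)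
      · rw [mem_ball_zero_iff]
        norm_num
        linarith
      · rw [hw 0 (mem_ball_self one_pos), hw (1 / 2) (by rw [mem_ball_zero_iff]; norm_num)]
    norm_num at h8
  have han : AnalyticOnNhd ℂ φ (ball 0 1) :=
    (hφ.mono (ball_subset_ball hr.le)).analyticOnNhd isOpen_ball
  have hopen : IsOpen (φ '' ball 0 1) :=
    (han.is_constant_or_isOpen (convex_ball (0 : ℂ) 1).isPreconnected).resolve_left hne _
      subset_rfl isOpen_ball
  have hin : φ '' ball 0 1 ⊆ ball xs R := by
    rw [← interior_closedBall _ hR0.ne']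
    apply interior_maximal _ hopen
    rintro _ ⟨w, hw, rfl⟩
    rw [mem_closedBall, dist_eq_norm]
    exact h7 w (ball_subset_closedBall hw)
  refine ⟨xs, R, hR0, hin.antisymm ?_⟩
  have hK : IsCompact (φ '' closedBall 0 1) :=
    (isCompact_closedBall (0 : ℂ) 1).image_of_continuousOn (hφ.continuousOn.mono hsub)
  have hpre : IsPreconnected (ball xs R) := (convex_ball xs R).isPreconnected
  refine IsPreconnected.subset_left_of_subset_union hopen hK.isClosed.isOpen_compl ?_ ?_ ?_ hpre
  · rw [Set.disjoint_compl_right_iff_subset]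
    exact image_mono ball_subset_closedBall
  · intro z hz
    by_cases hz2 : z ∈ φ '' closedBall 0 1
    · left
      obtain ⟨w, hw, rfl⟩ := hz2
      refine ⟨w, ?_, rfl⟩
      by_contra hwb
      have hws : w ∈ sphere (0 : ℂ) 1 := by
        rw [mem_sphere_zero_iff_norm]
        rw [mem_closedBall_zero_iff] at hw
        rw [mem_ball_zero_iff] at hwb
        linarith
      have := h6 w hws
      rw [mem_ball, dist_eq_norm] at hz
      linarith
    · right
      exact hz2
  · exact ⟨φ 0, hin ⟨0, mem_ball_self one_pos, rfl⟩, ⟨0, mem_ball_self one_pos, rfl⟩⟩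

end Pool.Agent.Y427.SC
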