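import Pool.Agent.Y245.SC.Stm3
import Pool.Agent.Y427.SC.GeoCore

/-!
SC-GEO (helper245): a circle (helper427).
-/

set_option autoImplicit false

namespace Pool.Agent.Y427.SC

theorem geo : Pool.Agent.Y245.SC.S_GEO := by
  intro φ r ct s0 xs hr hφ hinj hct h
  exact geo_core φ r ct s0 xs hr hφ hinj hct h

end Pool.Agent.Y427.SC
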