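import Mathlib

/-!
SC-SIMA (helper245): exact residues, statement without the definitions of the project (helper427).
-/

set_option autoImplicit false

open Complex Metric Set Filter Topology MeasureTheory

namespace Pool.Agent.Y427.SC

section

variable {r r' : ℝ} {c : ℂ} {y : ℂ → ℂ}

/-- the circle integral of `y ^ p y'` vanishes for `p ≠ -1` -/
theorem int_zpow (hr : 0 < r) (hr' : r < r') (hy : DifferentiableOn ℂ y (ball c r'))
    (hne : ∀ ω ∈ closedBall c r, ω ≠ c → y ω ≠ 0) (p : ℤ) (hp : p ≠ -1) :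
    ∮ ω in C(c, r), y ω ^ p * deriv y ω = 0 := by
  apply circleIntegral.integral_eq_zero_of_hasDerivWithinAt hr.le
    (f := fun ω => y ω ^ (p + 1) / ((p + 1 : ℤ) : ℂ))
  intro z hz
  have hzb : z ∈ ball c r' := by
    rw [mem_ball, mem_sphere.1 hz]
    exact hr'
  have hz0 : y z ≠ 0 := by
    apply hne z (sphere_subset_closedBall hz)
    rintro rfl
    rw [mem_sphere, dist_self] at hz
    exact hr.ne hz
  have hd : HasDerivAt y (deriv y z) z :=
    (hy.differentiableAt (isOpen_ball.mem_nhds hzb)).hasDerivAt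
  have hp1 : ((p + 1 : ℤ) : ℂ) ≠ 0 := by
    intro h
    have : p + 1 = 0 := by exact_mod_cast h
    omega
  have h1 : HasDerivAt (fun ω => y ω ^ (p + 1)) (((p + 1 : ℤ) : ℂ) * y z ^ (p + 1 - 1) *
      deriv y z) z := (hasDerivAt_zpow (p + 1) (y z) (Or.inl hz0)).comp z hd
  have h2 := h1.div_const ((p + 1 : ℤ) : ℂ)
  have e : ((p + 1 : ℤ) : ℂ) * y z ^ (p + 1 - 1) * deriv y z / ((p + 1 : ℤ) : ℂ) =
      y z ^ p * deriv y z := by
    rw [add_sub_cancel_right, mul_assoc, mul_div_cancel_left₀ _ hp1]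
  rw [e] at h2
  exact h2.hasDerivWithinAt

/-- the logarithmic derivative -/
theorem int_log (hr : 0 < r) (hr' : r < r') (hy : DifferentiableOn ℂ y (ball c r'))
    (hy0 : y c = 0) (hy1 : deriv y c ≠ 0) (hne : ∀ ω ∈ closedBall c r, ω ≠ c → y ω ≠ 0) :
    ∮ ω in C(c, r), (y ω)⁻¹ * deriv y ω = 2 * Real.pi * I := by
  have hcb : c ∈ ball c r' := mem_ball_self (hr.trans hr')
  set t : ℂ → ℂ := dslope y c with ht
  have htd : DifferentiableOn ℂ t (ball c r') :=
    (differentiableOn_dslope (isOpen_ball.mem_nhds hcb)).2 hy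
  have hyt : ∀ ω, y ω = (ω - c) * t ω := by
    intro ω
    have := sub_smul_dslope y c ω
    rw [smul_eq_mul, hy0, sub_zero] at this
    exact this.symm
  have htc : t c = deriv y c := dslope_same y c
  have hsub : closedBall c r ⊆ ball c r' := closedBall_subset_ball hr'
  have ht0 : ∀ ω ∈ closedBall c r, t ω ≠ 0 := by
    intro ω hω h
    by_cases hωc : ω = c
    · rw [hωc, htc] at h
      exact hy1 h
    · apply hne ω hω hωc
      rw [hyt, h, mul_zero]
  have htan : AnalyticOnNhd ℂ t (ball c r') := htd.analyticOnNhd isOpen_ball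
  have hq : DifferentiableOn ℂ (fun ω => deriv t ω / t ω) (closedBall c r) := by
    intro ω hω
    exact ((htan.deriv ω (hsub hω)).differentiableAt.div
      (htan ω (hsub hω)).differentiableAt (ht0 ω hω)).differentiableWithinAt
  have h1 : ∮ ω in C(c, r), deriv t ω / t ω = 0 := by
    apply Complex.circleIntegral_eq_zero_of_differentiable_on_off_countable hr.le
      countable_empty hq.continuousOn
    intro z hz
    have hz' : z ∈ ball c r := hz.1
    exact hq.differentiableAt (mem_of_superset (isOpen_ball.mem_nhds hz') ball_subset_closedBall)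
  have h2 : ∮ ω in C(c, r), (y ω)⁻¹ * deriv y ω =
      ∮ ω in C(c, r), ((ω - c)⁻¹ + deriv t ω / t ω) := by
    apply circleIntegral.integral_congr hr.le
    intro ω hω
    have hωb := hsub (sphere_subset_closedBall hω)
    have hωc : ω - c ≠ 0 := by
      intro h
      rw [sub_eq_zero.1 h, mem_sphere, dist_self] at hω
      exact hr.ne hω
    have htω := ht0 ω (sphere_subset_closedBall hω)
    have hd : deriv y ω = t ω + (ω - c) * deriv t ω := by
      have e : y = fun z => (z - c) * t z := funext hyt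
      have h3 : HasDerivAt (fun z => (z - c) * t z) (1 * t ω + (ω - c) * deriv t ω) ω :=
        ((hasDerivAt_id ω).sub_const c).mul (htan ω hωb).differentiableAt.hasDerivAt
      rw [e, h3.deriv, one_mul]
    simp only
    rw [hd, hyt ω]
    field_simp
  rw [h2, circleIntegral.integral_add, circleIntegral.integral_sub_center_inv c hr.ne', h1,
    add_zero]
  · rw [circleIntegrable_sub_inv_iff]
    right
    intro h
    rw [mem_sphere, dist_self, abs_of_pos hr] at h
    exact hr.ne h
  · exact (hq.continuousOn.mono sphere_subset_closedBall).circleIntegrable hr.le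

/-- the terms -/
theorem int_term (hr : 0 < r) (hr' : r < r') (hy : DifferentiableOn ℂ y (ball c r'))
    (hy0 : y c = 0) (hy1 : deriv y c ≠ 0) (hne : ∀ ω ∈ closedBall c r, ω ≠ c → y ω ≠ 0)
    (n j k : ℕ) :
    ∮ ω in C(c, r), y ω ^ j * (y ω)⁻¹ ^ k * (y ω ^ n * deriv y ω) =
      if k = j + n + 1 then 2 * Real.pi * I else 0 := by
  have hne' : ∀ ω ∈ sphere c r, y ω ≠ 0 := by
    intro ω hω
    apply hne ω (sphere_subset_closedBall hω)
    rintro rfl
    rw [mem_sphere, dist_self] at hω
    exact hr.ne hω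
  have h1 : ∮ ω in C(c, r), y ω ^ j * (y ω)⁻¹ ^ k * (y ω ^ n * deriv y ω) =
      ∮ ω in C(c, r), y ω ^ ((j : ℤ) + n - k) * deriv y ω := by
    apply circleIntegral.integral_congr hr.le
    intro ω hω
    have h0 := hne' ω hω
    simp only
    rw [zpow_sub₀ h0, zpow_add₀ h0, zpow_natCast, zpow_natCast, zpow_natCast, inv_pow]
    field_simp
  rw [h1]
  split_ifs with hk
  · have h2 : (j : ℤ) + n - k = -1 := by rw [hk]; push_cast; ring
    rw [h2]
    simp only [zpow_neg_one]
    exact int_log hr hr' hy hy0 hy1 hne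
  · exact int_zpow hr hr' hy hne _ (by omega)

theorem hasSum_prod {f g : ℕ → ℂ} {a b : ℂ} (hf : HasSum f a) (hg : HasSum g b)
    (nf : Summable fun k => ‖f k‖) (ng : Summable fun k => ‖g k‖) :
    HasSum (fun p : ℕ × ℕ => f p.1 * g p.2) (a * b) :=
  hf.mul hg (summable_mul_of_summable_norm nf ng)

theorem summable_prod {f g : ℕ → ℝ} (hf : Summable f) (hg : Summable g)
    (nf : ∀ k, 0 ≤ f k) (ng : ∀ k, 0 ≤ g k) :
    Summable (fun p : ℕ × ℕ => f p.1 * g p.2) :=
  hf.mul_of_nonneg hg nf ng

theorem sima_core (r r' : ℝ) (c : ℂ) (y : ℂ → ℂ) (α γ : ℂ) (n : ℕ) (hr : 0 < r) (hr' : r < r')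
    (hy : DifferentiableOn ℂ y (ball c r')) (hy0 : y c = 0) (hy1 : deriv y c ≠ 0)
    (hne : ∀ ω ∈ closedBall c r, ω ≠ c → y ω ≠ 0) :
    ∮ ω in C(c, r), exp (α * y ω + γ / y ω) * y ω ^ n * deriv y ω =
      2 * Real.pi * I * γ ^ (n + 1) *
        ∑' k : ℕ, (α * γ) ^ k / ((k.factorial : ℂ) * ((k + (n + 1)).factorial : ℂ)) := by
  have hsub : closedBall c r ⊆ ball c r' := closedBall_subset_ball hr'
  have hssub : sphere c r ⊆ ball c r' := sphere_subset_closedBall.trans hsub
  have hne' : ∀ ω ∈ sphere c r, y ω ≠ 0 := by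
    intro ω hω
    apply hne ω (sphere_subset_closedBall hω)
    rintro rfl
    rw [mem_sphere, dist_self] at hω
    exact hr.ne hω
  have hyc : ContinuousOn y (sphere c r) := hy.continuousOn.mono hssub
  have hyi : ContinuousOn (fun ω => (y ω)⁻¹) (sphere c r) := hyc.inv₀ hne'
  have hyd : ContinuousOn (deriv y) (sphere c r) :=
    ((hy.analyticOnNhd isOpen_ball).deriv.continuousOn).mono hssub
  have hK : IsCompact (sphere c r) := isCompact_sphere c r
  -- bounds
  obtain ⟨A, hA⟩ := hK.exists_bound_of_continuousOn (continuousOn_const.mul hyc :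
    ContinuousOn (fun ω => α * y ω) (sphere c r))
  obtain ⟨B, hB⟩ := hK.exists_bound_of_continuousOn (continuousOn_const.mul hyi :
    ContinuousOn (fun ω => γ * (y ω)⁻¹) (sphere c r))
  obtain ⟨D, hD⟩ := hK.exists_bound_of_continuousOn ((hyc.pow n).mul hyd :
    ContinuousOn (fun ω => y ω ^ n * deriv y ω) (sphere c r))
  have hcm : ∀ θ : ℝ, circleMap c r θ ∈ sphere c r := circleMap_mem_sphere c hr.le
  have hA0 : 0 ≤ A := (norm_nonneg _).trans (hA _ (hcm 0))
  have hB0 : 0 ≤ B := (norm_nonneg _).trans (hB _ (hcm 0))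
  have hD0 : 0 ≤ D := (norm_nonneg _).trans (hD _ (hcm 0))
  have hcmc : Continuous (circleMap c r) := continuous_circleMap c r
  have hyc' : Continuous fun θ : ℝ => y (circleMap c r θ) := hyc.comp_continuous hcmc hcm
  have hyi' : Continuous fun θ : ℝ => (y (circleMap c r θ))⁻¹ := hyi.comp_continuous hcmc hcm
  have hyd' : Continuous fun θ : ℝ => deriv y (circleMap c r θ) := hyd.comp_continuous hcmc hcm
  -- the series
  set T : ℕ × ℕ → ℂ → ℂ := fun p ω => (α * y ω) ^ p.1 / (p.1.factorial : ℂ) *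
    ((γ * (y ω)⁻¹) ^ p.2 / (p.2.factorial : ℂ)) * (y ω ^ n * deriv y ω) with hT
  have hs : ∀ (z w : ℂ), HasSum (fun p : ℕ × ℕ => z ^ p.1 / (p.1.factorial : ℂ) *
      (w ^ p.2 / (p.2.factorial : ℂ))) (exp z * exp w) := by
    intro z w
    have e1 : HasSum (fun k : ℕ => z ^ k / (k.factorial : ℂ)) (exp z) := by
      have := NormedSpace.expSeries_div_hasSum_exp z
      rwa [← Complex.exp_eq_exp_ℂ] at this
    have e2 : HasSum (fun k : ℕ => w ^ k / (k.factorial : ℂ)) (exp w) := by
      have := NormedSpace.expSeries_div_hasSum_exp w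
      rwa [← Complex.exp_eq_exp_ℂ] at this
    have n1 : Summable fun k : ℕ => ‖z ^ k / (k.factorial : ℂ)‖ :=
      NormedSpace.norm_expSeries_div_summable z
    have n2 : Summable fun k : ℕ => ‖w ^ k / (k.factorial : ℂ)‖ :=
      NormedSpace.norm_expSeries_div_summable w
    exact hasSum_prod (f := fun k : ℕ => z ^ k / (k.factorial : ℂ))
      (g := fun k : ℕ => w ^ k / (k.factorial : ℂ)) e1 e2 n1 n2
  have hsA : Summable fun p : ℕ × ℕ => A ^ p.1 / (p.1.factorial : ℝ) *
      (B ^ p.2 / (p.2.factorial : ℝ)) :=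
    summable_prod (f := fun k : ℕ => A ^ k / (k.factorial : ℝ))
      (g := fun k : ℕ => B ^ k / (k.factorial : ℝ)) (Real.summable_pow_div_factorial A)
      (Real.summable_pow_div_factorial B) (fun k => by positivity) (fun k => by positivity)
  have hmain : HasSum (fun p : ℕ × ℕ => ∮ ω in C(c, r), T p ω)
      (∮ ω in C(c, r), exp (α * y ω + γ / y ω) * y ω ^ n * deriv y ω) := by
    unfold circleIntegral
    apply intervalIntegral.hasSum_integral_of_dominated_convergence
      (bound := fun p _ => A ^ p.1 / (p.1.factorial : ℝ) * (B ^ p.2 / (p.2.factorial : ℝ)) *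
        (D * r))
    · intro p
      apply Continuous.aestronglyMeasurable
      simp only [hT, deriv_circleMap, smul_eq_mul]
      have h1 : Continuous fun θ : ℝ => circleMap 0 r θ * I :=
        (continuous_circleMap 0 r).mul continuous_const
      exact h1.mul (((((continuous_const.mul hyc').pow _).div_const _).mul
        (((continuous_const.mul hyi').pow _).div_const _)).mul ((hyc'.pow n).mul hyd'))
    · intro p
      refine Eventually.of_forall fun θ _ => ?_
      simp only [hT, deriv_circleMap, smul_eq_mul, norm_mul, norm_div, norm_pow, norm_I, mul_one,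
        Complex.norm_natCast]
      have e1 : ‖circleMap 0 r θ‖ = r := by rw [norm_circleMap_zero, abs_of_pos hr]
      rw [e1]
      have a1 : ‖α * y (circleMap c r θ)‖ ≤ A := hA _ (hcm θ)
      have b1 : ‖γ * (y (circleMap c r θ))⁻¹‖ ≤ B := hB _ (hcm θ)
      have d1 : ‖y (circleMap c r θ) ^ n * deriv y (circleMap c r θ)‖ ≤ D := hD _ (hcm θ)
      rw [norm_mul] at a1 b1
      rw [norm_mul, norm_pow] at d1
      have q1 : (‖α‖ * ‖y (circleMap c r θ)‖) ^ p.1 / (p.1.factorial : ℝ) ≤
          A ^ p.1 / (p.1.factorial : ℝ) := by gcongr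
      have q2 : (‖γ‖ * ‖(y (circleMap c r θ))⁻¹‖) ^ p.2 / (p.2.factorial : ℝ) ≤
          B ^ p.2 / (p.2.factorial : ℝ) := by gcongr
      have q3 := mul_le_mul q1 q2 (by positivity) (by positivity)
      have q4 := mul_le_mul q3 d1 (by positivity) (by positivity)
      calc r * ((‖α‖ * ‖y (circleMap c r θ)‖) ^ p.1 / (p.1.factorial : ℝ) *
          ((‖γ‖ * ‖(y (circleMap c r θ))⁻¹‖) ^ p.2 / (p.2.factorial : ℝ)) *
          (‖y (circleMap c r θ)‖ ^ n * ‖deriv y (circleMap c r θ)‖))
          ≤ r * (A ^ p.1 / (p.1.factorial : ℝ) * (B ^ p.2 / (p.2.factorial : ℝ)) * D) :=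
            mul_le_mul_of_nonneg_left q4 hr.le
        _ = _ := by ring
    · exact Eventually.of_forall fun θ _ => hsA.mul_right _
    · exact intervalIntegrable_const
    · refine Eventually.of_forall fun θ _ => ?_
      have h1 := (hs (α * y (circleMap c r θ)) (γ * (y (circleMap c r θ))⁻¹)).mul_right
        (y (circleMap c r θ) ^ n * deriv y (circleMap c r θ))
      have h2 := h1.mul_left (deriv (circleMap c r) θ)
      simp only [smul_eq_mul]
      rw [Complex.exp_add, div_eq_mul_inv, mul_assoc (exp _ * exp _)]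
      exact h2
  have hterm : ∀ p : ℕ × ℕ, ∮ ω in C(c, r), T p ω =
      if p.2 = p.1 + n + 1 then α ^ p.1 / (p.1.factorial : ℂ) * (γ ^ p.2 / (p.2.factorial : ℂ)) *
        (2 * Real.pi * I) else 0 := by
    intro p
    have h1 : ∮ ω in C(c, r), T p ω = ∮ ω in C(c, r),
        (α ^ p.1 / (p.1.factorial : ℂ) * (γ ^ p.2 / (p.2.factorial : ℂ))) *
        (y ω ^ p.1 * (y ω)⁻¹ ^ p.2 * (y ω ^ n * deriv y ω)) := by
      apply circleIntegral.integral_congr hr.le
      intro ω _
      simp only [hT, mul_pow]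
      ring
    rw [h1, circleIntegral.integral_const_mul, int_term hr hr' hy hy0 hy1 hne]
    split_ifs <;> simp
  simp only [hterm] at hmain
  have hinj : Function.Injective (fun j : ℕ => ((j, j + n + 1) : ℕ × ℕ)) := by
    intro a b hab
    exact (Prod.mk.inj hab).1
  rw [← hinj.hasSum_iff] at hmain
  · have h3 := hmain.tsum_eq
    rw [← h3, ← tsum_mul_left]
    apply tsum_congr
    intro j
    simp only [Function.comp, if_true]
    rw [mul_pow, show j + (n + 1) = j + n + 1 by ring, show γ ^ (j + n + 1) =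
      γ ^ (n + 1) * γ ^ j by ring]
    have f1 : (j.factorial : ℂ) ≠ 0 := by exact_mod_cast j.factorial_ne_zero
    have f2 : ((j + n + 1).factorial : ℂ) ≠ 0 := by exact_mod_cast (j + n + 1).factorial_ne_zero
    field_simp
  · intro p hp
    rw [if_neg]
    intro h
    exact hp ⟨p.1, Prod.ext rfl h.symm⟩

end

end Pool.Agent.Y427.SC
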