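import Pool.Agent.Y245.SC.Stm3
import Pool.Agent.Y427.SC.SimaCore

/-!
SC-SIMA (helper245): exact residues (helper427).
-/

set_option autoImplicit false

namespace Pool.Agent.Y427.SC

theorem sima : Pool.Agent.Y245.SC.S_SIMA := by
  intro r r' c y α γ n hr hr' hy hy0 hy1 hne
  rw [sima_core r r' c y α γ n hr hr' hy hy0 hy1 hne, Pool.Agent.Y245.SG.Bn]
  simp only [neg_neg]

end Pool.Agent.Y427.SC
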